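import Pool.Agent.H14R3.Campbell.Main

set_option autoImplicit false

namespace Pool.Agent.Results.MP_c4ccc8_an.Campbell

open Complex Metric Set ComplexConjugate

/-- The order (Pommerenke) of a locally univalent function `f` on the unit disc: the supremum over
`|z| < 1` of `|-conj z + (1 - |z|^2) f''(z) / (2 f'(z))|`, as an extended nonnegative real. -/
noncomputable def ord (f : ℂ → ℂ) : ENNReal :=
  ⨆ z ∈ ball (0 : ℂ) 1,
    ENNReal.ofReal ‖-conj z + (1 - (‖z‖ : ℂ) ^ 2) * deriv (deriv f) z / (2 * deriv f z)‖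

/-- The universal linear-invariant family `U_α`: `f` analytic and locally univalent on the unit
disc, `f(0) = 0`, `f'(0) = 1`, of order at most `α`. -/
structure InU (α : ℝ) (f : ℂ → ℂ) : Prop where
  analytic : DifferentiableOn ℂ f (ball (0 : ℂ) 1)
  locally_univalent : ∀ z ∈ ball (0 : ℂ) 1, deriv f z ≠ 0
  zero : f 0 = 0
  deriv_zero : deriv f 0 = 1
  ord_le : ord f ≤ ENNReal.ofReal α

/-- `f ≺ F` in the unit disc: `f = F ∘ w` there, with `w` analytic and `|w(z)| ≤ |z|`. -/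
def Subordinate (f F : ℂ → ℂ) : Prop :=
  ∃ w : ℂ → ℂ, DifferentiableOn ℂ w (ball (0 : ℂ) 1) ∧
    (∀ z ∈ ball (0 : ℂ) 1, ‖w z‖ ≤ ‖z‖) ∧ ∀ z ∈ ball (0 : ℂ) 1, f z = F (w z)

/-- `ρ(α) = α + 1 - √(α² + 2α)`. -/
noncomputable def rho (α : ℝ) : ℝ := α + 1 - Real.sqrt (α ^ 2 + 2 * α)

/-- Campbell's majorization conjecture, for every order `α ≥ 1` (in particular for
`1 < α < 1.65`), on the closed disc `|z| ≤ ρ(α)`. -/
theorem result : ∀ α : ℝ, 1 ≤ α → ∀ F f : ℂ → ℂ, InU α F → Subordinate f F →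
    0 ≤ (deriv f 0).re → (deriv f 0).im = 0 →
    ∀ z : ℂ, ‖z‖ ≤ rho α → ‖deriv f z‖ ≤ ‖deriv F z‖ := by
  intro α hα F f hF hfF hre him z hz
  obtain ⟨w, hw, hwz, hfw⟩ := hfF
  have h0mem : (0:ℂ) ∈ ball (0:ℂ) 1 := mem_ball_self one_pos
  -- the radius
  have hs0 : 0 ≤ Real.sqrt (α ^ 2 + 2 * α) := Real.sqrt_nonneg _
  have hs2 : Real.sqrt (α ^ 2 + 2 * α) ^ 2 = α ^ 2 + 2 * α := Real.sq_sqrt (by positivity)
  have hsα : α < Real.sqrt (α ^ 2 + 2 * α) := by
    apply Real.lt_sqrt_of_sq_lt; nlinarith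
  have hz1 : ‖z‖ < 1 := by
    refine lt_of_le_of_lt hz ?_
    rw [rho]; linarith
  have hz2 : 2 * α * ‖z‖ ≤ (1 - ‖z‖) ^ 2 := by
    have h1 : Real.sqrt (α ^ 2 + 2 * α) ≤ α + 1 - ‖z‖ := by
      rw [rho] at hz; linarith
    have h2 := pow_le_pow_left₀ hs0 h1 2
    rw [hs2] at h2
    nlinarith
  have hzm : z ∈ ball (0:ℂ) 1 := mem_ball_zero_iff.2 hz1
  -- the order bound, pointwise
  have hord : ∀ z ∈ ball (0:ℂ) 1,
      ‖-conj z + (1 - (‖z‖ : ℂ) ^ 2) * deriv (deriv F) z / (2 * deriv F z)‖ ≤ α := by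
    intro y hy
    have h1 : ENNReal.ofReal
        ‖-conj y + (1 - (‖y‖ : ℂ) ^ 2) * deriv (deriv F) y / (2 * deriv F y)‖ ≤
        ENNReal.ofReal α :=
      le_trans (le_iSup₂ (f := fun (z : ℂ) (_ : z ∈ ball (0:ℂ) 1) => ENNReal.ofReal
        ‖-conj z + (1 - (‖z‖ : ℂ) ^ 2) * deriv (deriv F) z / (2 * deriv F z)‖) y hy) hF.ord_le
    exact (ENNReal.ofReal_le_ofReal_iff (by linarith)).1 h1
  have hw0 : w 0 = 0 := by
    have := hwz 0 h0mem
    rw [norm_zero] at this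
    exact norm_le_zero_iff.1 this
  have hder : ∀ y ∈ ball (0:ℂ) 1, deriv f y = deriv F (w y) * deriv w y := by
    intro y hy
    have hy1 : ‖y‖ < 1 := mem_ball_zero_iff.1 hy
    have hwy : w y ∈ ball (0:ℂ) 1 := mem_ball_zero_iff.2 (lt_of_le_of_lt (hwz y hy) hy1)
    have e1 : f =ᶠ[nhds y] fun u => F (w u) := by
      filter_upwards [isOpen_ball.mem_nhds hy] with u hu
      exact hfw u hu
    rw [e1.deriv_eq]
    have d1 : DifferentiableAt ℂ F (w y) :=
      hF.analytic.differentiableAt (isOpen_ball.mem_nhds hwy)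
    have d2 : DifferentiableAt ℂ w y := hw.differentiableAt (isOpen_ball.mem_nhds hy)
    exact (d1.hasDerivAt.comp y d2.hasDerivAt).deriv
  have ha : deriv w 0 = (((deriv f 0).re : ℝ) : ℂ) := by
    have h1 := hder 0 h0mem
    rw [hw0, hF.deriv_zero, one_mul] at h1
    rw [← h1]
    apply Complex.ext
    · simp
    · simp [him]
  rw [hder z hzm, norm_mul]
  exact Pool.Agent.H14R3.Campbell.major hα hF.analytic hF.locally_univalent hord hw hwz hre ha
    hz1 hz2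

end Pool.Agent.Results.MP_c4ccc8_an.Campbell
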